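import Mathlib
import Pool.Agent.Lib.MP_2194ec_nt.SP.Iface

set_option autoImplicit false

/-!
# The dynamical Lehmer bound for Galois points of polynomials of degree `p ^ s`: definitions and
statements of the rows
-/

namespace Pool.DynLehmer.GAL
open MvPolynomial NumberField Filter Topology Pool.DynLehmer Pool.DynLehmer.SB Pool.DynLehmer.SP
open scoped Classical

/-- `P` lies on a `K`-irreducible curve with Hilbert function at most `c (T + 1)` which is mapped
into itself by some iterate of `F` -/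
def OnPer {K : Type} [Field K] {ι : Type} (F : ι → MvPolynomial ι K) {N : Type} [Field N]
    [Algebra K N] (P : ι → N) (c : ℕ) : Prop :=
  ∃ (k : ℕ) (Q : Ideal (MvPolynomial ι K)), 0 < k ∧ Q.IsPrime ∧
    (∀ G ∈ Q, ∀ d, homogeneousComponent d G ∈ Q) ∧
    (∀ T, Module.finrank K ↥(homogeneousSubmodule ι K T ⊓ Q.restrictScalars K) + (T + 1) ≤
      Module.finrank K (homogeneousSubmodule ι K T)) ∧
    (∀ T, Module.finrank K (homogeneousSubmodule ι K T) ≤
      Module.finrank K ↥(homogeneousSubmodule ι K T ⊓ Q.restrictScalars K) + c * (T + 1)) ∧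
    (∀ G ∈ Q, aeval P G = 0) ∧
    ∀ G ∈ Q, (bind₁ F)^[k] G ∈ Q

/-- the `k`-th iterate of `f`, as a polynomial -/
noncomputable def itp {K : Type} [Field K] (f : Polynomial K) (k : ℕ) : Polynomial K :=
  (fun g => f.comp g)^[k] Polynomial.X

/-- the substitution `G(X, Y) ↦ G(f^k(X), f^k(Y))`; `Y` is the outer variable -/
noncomputable def biv {K : Type} [Field K] (f : Polynomial K) (k : ℕ)
    (G : Polynomial (Polynomial K)) : Polynomial (Polynomial K) :=
  (G.map (Polynomial.compRingHom (itp f k))).comp ((itp f k).map Polynomial.C)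

/-- the value `G(x, y)` -/
noncomputable def ev2 {K : Type} [Field K] {N : Type} [CommRing N] [Algebra K N] (x y : N)
    (G : Polynomial (Polynomial K)) : N :=
  G.eval₂ (Polynomial.aeval x : Polynomial K →ₐ[K] N).toRingHom y

/-- the map given by `f` -/
noncomputable def fm {K : Type} [Field K] (f : Polynomial K) (N : Type) [CommRing N] [Algebra K N]
    (x : N) : N := Polynomial.aeval x f

/-- `x` is not preperiodic for `f` -/
def Wand {K : Type} [Field K] (f : Polynomial K) {N : Type} [CommRing N] [Algebra K N]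
    (x : N) : Prop := ∀ m n : ℕ, (fm f N)^[m] x = (fm f N)^[n] x → m = n

/-- the point `(x : y : 1)` -/
def pt {N : Type} [CommRing N] (x y : N) : Fin 3 → N := ![x, y, 1]

/-- `F` is the extension of `(f, f)` to the projective plane -/
def Ext {K : Type} [Field K] (f : Polynomial K) (F : Fin 3 → MvPolynomial (Fin 3) K) : Prop :=
  ∀ (N : Type) [Field N] [Algebra K N] (x y : N), gAct F N (pt x y) = pt (fm f N x) (fm f N y)

/-- `G` is a bivariate irreducible polynomial of degree at most `e` in each variable, depends on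
both variables, and divides `G(f^k(X), f^k(Y))` for some `k ≥ 1` -/
structure PerPol {K : Type} [Field K] (f : Polynomial K) (e : ℕ)
    (G : Polynomial (Polynomial K)) : Prop where
  irr : Irreducible G
  degY : G.natDegree ≤ e
  degX : ∀ i, (G.coeff i).natDegree ≤ e
  posY : 0 < G.natDegree
  posX : ∃ i, 0 < (G.coeff i).natDegree
  per : ∃ k : ℕ, 0 < k ∧ G ∣ biv f k G

/-- Hypotheses on `f`: monic of degree `p ^ s`, with constant term integral at `v` and the other
lower coefficients in the maximal ideal, `v` above `p`, and not of the form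
`(z - b) ^ (p ^ s) + b`. -/
structure Hyp {K : Type} [Field K] [NumberField K] (p s : ℕ) (v : FinitePlace K)
    (f : Polynomial K) : Prop where
  prime : p.Prime
  pos : 1 ≤ s
  above : v (p : K) < 1
  monic : f.Monic
  deg : f.natDegree = p ^ s
  int : v (f.coeff 0) ≤ 1
  red : ∀ i, 0 < i → i < p ^ s → v (f.coeff i) < 1
  ne : ∀ b : K, f ≠ (Polynomial.X - Polynomial.C b) ^ (p ^ s) + Polynomial.C b

/-! ## Statements of the rows -/

/-- Row A: the Lehmer bound, or some iterate of the point lies on a periodic curve of small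
degree. Here `idx ⊤ P` is the number of conjugates of `P` over `K`. -/
def AStatement : Prop :=
  ∀ (K : Type) [Field K] [NumberField K] (p s : ℕ) (ι : Type) [Fintype ι] [DecidableEq ι]
    [Nonempty ι] (v : FinitePlace K), 2 ≤ Fintype.card ι → p.Prime → 1 ≤ s → v (p : K) < 1 →
    ∀ F : ι → MvPolynomial ι K, (∀ i, (F i).IsHomogeneous (p ^ s)) →
    (∀ i t, v (coeff t (F i)) ≤ 1) →
    (∀ i t, (∀ j, t ≠ Finsupp.single j (p ^ s)) → v (coeff t (F i)) < 1) →
    v (Matrix.det (Matrix.of fun i j => coeff (Finsupp.single j (p ^ s)) (F i))) = 1 →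
    ∀ ε : ℝ, 0 < ε → ε < 1 → ∃ c : ℝ, 0 < c ∧ ∀ Y : ℝ, 1 ≤ Y →
    ∀ (N : Type) [Field N] [NumberField N] [Algebra K N] [IsGalois K N] (P : ι → N), P ≠ 0 →
      (¬ ∃ m n : ℕ, m ≠ n ∧ ∃ c : N, c ≠ 0 ∧ (gAct F N)^[n] P = c • (gAct F N)^[m] P) →
      ∃ h : ℝ, Tendsto (fun n : ℕ => Height.logHeight ((gAct F N)^[n] P) /
        (Module.finrank ℚ N : ℝ) / ((p ^ s : ℕ) : ℝ) ^ n) atTop (𝓝 h) ∧
        (c * Y ^ (-ε) ≤ (idx (⊤ : Subgroup (N ≃ₐ[K] N)) P : ℝ) * h ∨
          ∃ (n e : ℕ) (X : ℝ), 1 ≤ X ∧ Y ≤ X ∧ (e : ℝ) ≤ X ^ ε ∧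
            ((p ^ s : ℕ) : ℝ) ^ n * X ^ (1 - ε) ≤ idx (⊤ : Subgroup (N ≃ₐ[K] N)) P ∧
            X ^ (1 - ε) ≤ idx (⊤ : Subgroup (N ≃ₐ[K] N)) ((gAct F N)^[n] P) ∧
            OnPer F ((gAct F N)^[n] P) e)

/-- Row B: the number of periodic irreducible bivariate polynomials of bounded degree. -/
def BStatement : Prop :=
  ∀ (K : Type) [Field K] [NumberField K] (q : ℕ) (f : Polynomial K), 2 ≤ q → f.Monic →
    f.natDegree = q →
    (∀ b : K, f ≠ (Polynomial.X - Polynomial.C b) ^ q + Polynomial.C b) →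
    ∃ C n : ℕ, ∀ e : ℕ, ∃ S : Finset (Polynomial (Polynomial K)), S.card ≤ C * e ^ n ∧
      ∀ G, PerPol f e G → ∃ G' ∈ S, Associated G G'

/-- Row C: the extension of `(f, f)` to the projective plane. -/
def CStatement : Prop :=
  ∀ (K : Type) [Field K] [NumberField K] (p s : ℕ) (v : FinitePlace K) (f : Polynomial K),
    Hyp p s v f →
    ∃ F : Fin 3 → MvPolynomial (Fin 3) K, (∀ i, (F i).IsHomogeneous (p ^ s)) ∧
      (∀ i t, v (coeff t (F i)) ≤ 1) ∧
      (∀ i t, (∀ j, t ≠ Finsupp.single j (p ^ s)) → v (coeff t (F i)) < 1) ∧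
      v (Matrix.det (Matrix.of fun i j => coeff (Finsupp.single j (p ^ s)) (F i))) = 1 ∧
      Ext f F

/-- Row C, heights. -/
def ChStatement : Prop :=
  ∀ (N : Type) [Field N] [NumberField N] (x y : N),
    Height.logHeight (pt x y) ≤ Height.logHeight ![x, 1] + Height.logHeight ![y, 1]

/-- Row D: from a periodic curve to a periodic bivariate polynomial. -/
def DStatement : Prop :=
  ∀ (K : Type) [Field K] [NumberField K] (f : Polynomial K)
    (F : Fin 3 → MvPolynomial (Fin 3) K), Ext f F →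
    ∀ (N : Type) [Field N] [Algebra K N] (b b' : N) (c : ℕ), Wand f b → Wand f b' →
      OnPer F (pt b b') c →
      ∃ G : Polynomial (Polynomial K), PerPol f (2 * c) G ∧ ev2 b b' G = 0

/-- Row D, fibres. -/
def DfStatement : Prop :=
  ∀ (K : Type) [Field K] (G : Polynomial (Polynomial K)), Irreducible G → 0 < G.natDegree →
    ∀ (N : Type) [Field N] [Algebra K N] (b : N),
      G.map (Polynomial.aeval b : Polynomial K →ₐ[K] N).toRingHom ≠ 0

/-- The theorem: for a wandering point `a` of a Galois extension `N / K` the canonical height is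
at least `c / ([N : K] [N : K(a)] ^ ε)`; if `K(a) / K` is Galois this is the bound
`c / [K(a) : K]` of the dynamical Lehmer conjecture. -/
def GalStatement : Prop :=
  ∀ (K : Type) [Field K] [NumberField K] (p s : ℕ) (v : FinitePlace K) (f : Polynomial K),
    Hyp p s v f → ∀ ε : ℝ, 0 < ε →
    ∃ c : ℝ, 0 < c ∧ ∀ (N : Type) [Field N] [NumberField N] [Algebra K N] [IsGalois K N] (a : N),
      Wand f a →
      ∃ h : ℝ, Tendsto (fun n : ℕ => Height.logHeight ![(fm f N)^[n] a, 1] /
        (Module.finrank ℚ N : ℝ) / ((p ^ s : ℕ) : ℝ) ^ n) atTop (𝓝 h) ∧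
        c / ((Module.finrank K N : ℝ) *
          (Module.finrank (IntermediateField.adjoin K {a}) N : ℝ) ^ ε) ≤ h

/-- Row E: the end of the proof. -/
def EStatement : Prop :=
  AStatement → BStatement → CStatement → ChStatement → DStatement → DfStatement → GalStatement

end Pool.DynLehmer.GAL
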