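import Mathlib
import Pool.Agent.Lib.MP_2194ec_nt.SP.All
import Pool.Agent.Lib.MP_2194ec_nt.GAL.Defs

set_option autoImplicit false

/-!
# Theorem L with bounds for the curve: definitions
-/

namespace Pool.DynLehmer.GAL
open MvPolynomial NumberField Pool.DynLehmer Pool.DynLehmer.SB Pool.DynLehmer.SP
open scoped Classical

/-- some iterate `F ^ r` of the point, `q ^ r ≤ M`, lies on a periodic irreducible curve of
degree at most `M` -/
def OnCurveB {K : Type} [Field K] {ι : Type} (q : ℕ) (F : ι → MvPolynomial ι K) {N : Type}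
    [Field N] [Algebra K N] (P : ι → N) (M : ℕ) : Prop :=
  ∃ r c : ℕ, q ^ r ≤ M ∧ c ≤ M ∧ OnPer F ((gAct F N)^[r] P) c

theorem OnCurveB.mono {K : Type} [Field K] {ι : Type} {q : ℕ} {F : ι → MvPolynomial ι K}
    {N : Type} [Field N] [Algebra K N] {P : ι → N} {M M' : ℕ} (h : OnCurveB q F P M)
    (hM : M ≤ M') : OnCurveB q F P M' := by
  obtain ⟨r, c, h1, h2, h3⟩ := h
  exact ⟨r, c, h1.trans hM, h2.trans hM, h3⟩

/-- CASEA, many levels whose Hilbert functions are small -/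
def CaseaBStatement : Prop :=
  ∀ (K : Type) [Field K] [NumberField K] (p s : ℕ) (ι : Type) [Fintype ι] [DecidableEq ι]
    [Nonempty ι] (v : FinitePlace K) (Φ : GF (OW v) p s ι), p.Prime → 1 ≤ s →
    v (Φ.ϖ : K) < 1 → (Φ.ϖ : K) ≠ 0 → (∀ a : K, v a < 1 → v a ≤ v (Φ.ϖ : K)) →
    ∀ k₀ : ℕ, 1 ≤ k₀ → (∀ G : MvPolynomial ι (OW v), ∃ H : MvPolynomial ι (OW v),
      (bind₁ Φ.F)^[k₀] G = G ^ ((p ^ s) ^ k₀) + C Φ.ϖ * H) →
    ∀ F : ι → MvPolynomial ι K, (∀ i, map (OW v).subtype (Φ.F i) = F i) →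
    (∀ z : ι → AlgebraicClosure K, (∀ i, aeval z (F i) = 0) → z = 0) →
    ∀ (Ω : Type) [Field Ω] [Algebra K Ω] (x : ι → Ω) (W : ℕ), GenC K x W →
    ∀ (N : Type) [Field N] [NumberField N] [Algebra K N] [IsGalois K N] (R : ι → N), R ≠ 0 →
      SpecTo K x R →
    ∀ (U m b J t L : ℕ), ¬ OnCurveB (p ^ s) F R (W * (p ^ s) ^ (k₀ * (U + m + L))) → (2 * W) ^ Fintype.card ι ≤ ((p ^ s) ^ k₀) ^ U →
      L = 2 * 3 ^ Fintype.card ι → 2 * (L * t) ≤ dl b (p ^ s) J →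
      W * (dl b (p ^ s) J * (p ^ s) ^ (k₀ * (U + m + L))) < idx (⊤ : Subgroup (N ≃ₐ[K] N)) R →
      (∀ i < L, 2 * HW K ((gAct F N)^[k₀ * (U + m + i)] R) t < (t + 1) * (t + 2)) →
      ∃ r : ℕ, 2 * r ≤ HW K (joint fun i : Fin L => (gAct F N)^[k₀ * (U + m + i)] R)
          (dl b (p ^ s) J) ∧
      ∀ (w : FinitePlace N) (e : ℕ), Above v w e →
      ∀ (n : ℕ) (row : Fin n → Fin L × (N ≃ₐ[K] N)) (μ : Fin n → ℕ → ι →₀ ℕ),
        (∀ a j, (μ a j).degree = b) →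
        w (Matrix.of fun i a => aeval (gal (row i).2
          ((gAct F N)^[k₀ * (U + m + (row i).1)] R)) (gQ F J (μ a))).det ≤
          w (toN v N Φ.ϖ) ^ ((m + 1) * (n - r)) * ∏ i, ∏ j ∈ Finset.range (J + 1),
            (⨆ l, w ((gAct F N)^[j] (gal (row i).2
              ((gAct F N)^[k₀ * (U + m + (row i).1)] R)) l)) ^ b

/-- CRVN, points on curves of small degree -/
def CrvnBStatement : Prop :=
  ∀ (K : Type) [Field K] [NumberField K] (p s : ℕ) (ι : Type) [Fintype ι] [DecidableEq ι]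
    [Nonempty ι] (v : FinitePlace K) (Φ : GF (OW v) p s ι), 2 ≤ Fintype.card ι → p.Prime →
    1 ≤ s → v (Φ.ϖ : K) < 1 → (Φ.ϖ : K) ≠ 0 → (∀ a : K, v a < 1 → v a ≤ v (Φ.ϖ : K)) →
    ∀ F : ι → MvPolynomial ι K, (∀ i, (F i).IsHomogeneous (p ^ s)) →
    (∀ z : ι → AlgebraicClosure K, (∀ i, aeval z (F i) = 0) → z = 0) →
    (∀ i, map (OW v).subtype (Φ.F i) = F i) →
    ∃ C1 C2 : ℕ, ∀ (N : Type) [Field N] [NumberField N] [Algebra K N] [IsGalois K N]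
      (R : ι → N), R ≠ 0 → ∀ w : ℕ, 1 ≤ w → (∀ T, HW K R T ≤ w * (T + 1)) →
      C2 * w ^ C2 ≤ idx (⊤ : Subgroup (N ≃ₐ[K] N)) R →
      ∀ h : ℝ, Filter.Tendsto (fun n : ℕ => Height.logHeight ((gAct F N)^[n] R) /
        (Module.finrank ℚ N : ℝ) / ((p ^ s : ℕ) : ℝ) ^ n) Filter.atTop (nhds h) →
      1 ≤ (C1 : ℝ) * (w : ℝ) ^ C1 * h ∨
        OnCurveB (p ^ s) F R (C2 * w ^ C2)


end Pool.DynLehmer.GAL
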