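import Mathlib
import Pool.Agent.Lib.MP_2194ec_nt.GAL.Defs

set_option autoImplicit false

/-!
# The number of periodic bivariate polynomials: Hahn series at infinity, statements of the rows

`K(X)` is embedded in the field of Hahn series with rational exponents over an algebraically
closed field, by `X ↦ b`, where `b = s⁻¹ (1 + b₁ s + ...)` is a series with `f(b(s)) = b(s ^ q)`.
-/

namespace Pool.DynLehmer.GAL
open Polynomial

/-- Laurent series are Hahn series with rational exponents -/
noncomputable def emb (F : Type) [Field F] : LaurentSeries F →+* HahnSeries ℚ F :=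
  HahnSeries.embDomainRingHom (Int.castAddHom ℚ) Int.cast_injective
    (fun _ _ => Int.cast_le)

/-- multiplication of the exponents by `q + 1` -/
noncomputable def phi (F : Type) [Field F] (q : ℕ) : HahnSeries ℚ F →+* HahnSeries ℚ F :=
  HahnSeries.embDomainRingHom (AddMonoidHom.mulLeft ((q : ℚ) + 1))
    (mul_right_injective₀ (by positivity))
    (fun _ _ => mul_le_mul_iff_right₀ (by positivity))

/-- Row SPL: polynomials over the field of Laurent series split. -/
def SplStatement : Prop :=
  ∀ (F : Type) [Field F] [IsAlgClosed F] [CharZero F] (P : (LaurentSeries F)[X]),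
    (P.map (emb F)).Splits

/-- Row BOT: the Böttcher coordinate. -/
def BotStatement : Prop :=
  ∀ (F : Type) [Field F] [CharZero F] (f : F[X]) (q : ℕ), f.Monic → f.natDegree = q + 1 → 1 ≤ q →
    ∃ b : LaurentSeries F, (emb F b).order = -1 ∧ (emb F b).leadingCoeff = 1 ∧
      aeval (emb F b) f = phi F q (emb F b)

/-- Row EDGE: the leading term of a root. -/
def EdgeStatement : Prop :=
  ∀ (K F : Type) [Field K] [Field F] [Algebra K F] (G : K[X][X]) (e : ℕ) (b y : HahnSeries ℚ F),
    G ≠ 0 → G.natDegree ≤ e → (∀ i, (G.coeff i).natDegree ≤ e) →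
    b.order = -1 → b.leadingCoeff = 1 → y ≠ 0 → ev2 b y G = 0 →
    (∃ p : K[X], p ≠ 0 ∧ p.natDegree ≤ e ∧ aeval y.leadingCoeff p = 0) ∧
    ∃ (i j : ℕ) (a : ℤ), i < j ∧ j ≤ e ∧ |a| ≤ e ∧ ((j : ℚ) - i) * y.order = a

/-- Row ROU: the number of roots of unity of bounded degree. -/
def RouStatement : Prop :=
  ∀ (K : Type) [Field K] [NumberField K], ∃ C n : ℕ, ∀ E : ℕ,
    ∃ S : Finset (AlgebraicClosure K), S.card ≤ C * E ^ n ∧
      ∀ z : AlgebraicClosure K, (∃ m, 0 < m ∧ z ^ m = 1) →
        (∃ p : K[X], p ≠ 0 ∧ p.natDegree ≤ E ∧ aeval z p = 0) → z ∈ S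

end Pool.DynLehmer.GAL
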