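import Mathlib
import Pool.Agent.Lib.MP_2194ec_nt.GAL.BDefs

set_option autoImplicit false

/-!
# More statements used in row B
-/

namespace Pool.DynLehmer.GAL
open Polynomial

/-- Row POW: if an iterate is `(z - c) ^ Q + c` then so is `f`. -/
def PowStatement : Prop :=
  ∀ (K F : Type) [Field K] [CharZero K] [Field F] [Algebra K F] (q : ℕ) (f : K[X]), 2 ≤ q →
    f.Monic → f.natDegree = q → ∀ (k : ℕ) (c : F), 0 < k →
    (itp f k).map (algebraMap K F) = (X - C c) ^ (q ^ k) + C c →
    ∃ b : K, f = (X - C b) ^ q + C b

/-- Row UNI: the irreducible polynomial of a root is unique. -/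
def UniStatement : Prop :=
  ∀ (K L : Type) [Field K] [Field L] [Algebra K L] (b y : L) (G G' : K[X][X]),
    Transcendental K b → Irreducible G → Irreducible G' → 0 < G.natDegree → 0 < G'.natDegree →
    ev2 b y G = 0 → ev2 b y G' = 0 → Associated G G'

/-- Row CON: a root that is algebraic over `K` comes from a polynomial in `Y`. -/
def ConStatement : Prop :=
  ∀ (K F L : Type) [Field K] [Field F] [Field L] [Algebra K F] [Algebra.IsAlgebraic K F]
    [Algebra K L] [Algebra F L] [IsScalarTower K F L] (b : L) (c : F) (G : K[X][X]),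
    Transcendental F b → Irreducible G → (∃ i, 0 < (G.coeff i).natDegree) →
    ev2 b (algebraMap F L c) G ≠ 0

end Pool.DynLehmer.GAL
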