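import Mathlib
import Pool.Agent.Lib.MP_2194ec_nt.GAL.Defs

set_option autoImplicit false

/-!
# The theorem for sets of conjugates
-/

namespace Pool.DynLehmer.GAL
open MvPolynomial NumberField Filter Topology Pool.DynLehmer Pool.DynLehmer.SB Pool.DynLehmer.SP
open scoped Classical

/-- The theorem for a set `S` of conjugates: if `N` contains a nonempty set `S` of conjugates `b`
of the wandering point `a` over `K` with `[K(a, b) : K(a)] ≤ t`, then the canonical height of `a`
is at least `c / (t D (t D / |S|) ^ ε)`, where `D = [K(a) : K]`. If `K(a) / K` is Galois, take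
`t = 1` and for `S` all conjugates: this is the bound `c / [K(a) : K]`. -/
def GalSetStatement : Prop :=
  ∀ (K : Type) [Field K] [NumberField K] (p s : ℕ) (v : FinitePlace K) (f : Polynomial K),
    Hyp p s v f → ∀ ε : ℝ, 0 < ε →
    ∃ c : ℝ, 0 < c ∧ ∀ (N : Type) [Field N] [NumberField N] [Algebra K N] (a : N),
      Wand f a → ∀ (t : ℕ) (S : Finset N), S.Nonempty →
      (∀ b ∈ S, Polynomial.aeval b (minpoly K a) = 0 ∧
        Module.finrank K (IntermediateField.adjoin K {a, b}) ≤
          t * Module.finrank K (IntermediateField.adjoin K {a})) →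
      ∃ h : ℝ, Tendsto (fun n : ℕ => Height.logHeight ![(fm f N)^[n] a, 1] /
        (Module.finrank ℚ N : ℝ) / ((p ^ s : ℕ) : ℝ) ^ n) atTop (𝓝 h) ∧
        c / ((t : ℝ) * (Module.finrank K (IntermediateField.adjoin K {a}) : ℝ) *
          ((t : ℝ) * (Module.finrank K (IntermediateField.adjoin K {a}) : ℝ) /
            (S.card : ℝ)) ^ ε) ≤ h

/-- The end of the proof for sets of conjugates. -/
def ESetStatement : Prop :=
  AStatement → BStatement → CStatement → ChStatement → DStatement → DfStatement →
    GalSetStatement

end Pool.DynLehmer.GAL
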